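import Pool.Graph.R_seed8.H570R2.ZamAsymp

/-!
# Parallel repetition of ZAM protocols
-/

set_option autoImplicit false

namespace Pool.Agent.KS6_76.ZAM

open Pool.Agent.H570R2

/-- `P` is a ZAM protocol for `f` with soundness error `δ`: perfect completeness, acceptance
probability at most `δ` on the `0`-inputs, unambiguity on `1`-inputs, and zero information (the
distribution of the index is the same for all `1`-inputs). -/
structure IsZAMErr {X Y : Type} (δ : ℚ) (P : AMProtocol X Y) (f : X → Y → Bool) : Prop where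
  completeness : ∀ x y, f x y = true → P.accProb x y = 1
  soundness : ∀ x y, f x y = false → P.accProb x y ≤ δ
  unambiguous : ∀ x y, f x y = true → ∀ r q i j, P.Hits x y r q i → P.Hits x y r q j → i = j
  zeroInformation : ∀ x y x' y', f x y = true → f x' y' = true →
    ∀ o : Option (Fin P.m), P.prob (fun r q => P.index x y r q = o) =
      P.prob (fun r q => P.index x' y' r q = o)

/-- `ZAM_δ(f)`: the least cost of a ZAM protocol for `f` with soundness error `δ`. -/
noncomputable def ZAMErr {X Y : Type} (δ : ℚ) (f : X → Y → Bool) : ℕ∞ :=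
  ⨅ (P : AMProtocol X Y) (_ : IsZAMErr δ P f), (P.cost : ℕ∞)

theorem zamErr_half {X Y : Type} (f : X → Y → Bool) : ZAMErr (1 / 2) f = ZAM f := by
  unfold ZAMErr ZAM
  refine iInf_congr fun P => ?_
  refine iInf_congr_Prop ⟨fun h => ⟨h.1, h.2, h.3, h.4⟩, fun h => ⟨h.1, h.2, h.3, h.4⟩⟩ fun _ => rfl

section

variable {X Y : Type}

/-- the `k`-fold parallel repetition -/
noncomputable def rep (P : AMProtocol X Y) (k : ℕ) : AMProtocol X Y where
  R := Fin k → P.R
  Q := Fin k → P.Q
  finR := by
    have := P.finR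
    infer_instance
  finQ := by
    have := P.finQ
    infer_instance
  neR := by
    have := P.neR
    infer_instance
  neQ := by
    have := P.neQ
    infer_instance
  m := P.m ^ k
  A i := {z | ∀ j, (z.1, z.2 j) ∈ P.A (finFunctionFinEquiv.symm i j)}
  B i := {z | ∀ j, (z.1, z.2 j) ∈ P.B (finFunctionFinEquiv.symm i j)}

theorem rep_hits (P : AMProtocol X Y) (k : ℕ) (x : X) (y : Y) (r : Fin k → P.R) (q : Fin k → P.Q)
    (i : Fin (P.m ^ k)) : (rep P k).Hits x y r q i ↔
      ∀ j, P.Hits x y (r j) (q j) (finFunctionFinEquiv.symm i j) := by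
  unfold AMProtocol.Hits rep
  simp only [Set.mem_prod, Set.mem_ofPred_eq]
  exact ⟨fun h j => ⟨h.1 j, h.2 j⟩, fun h => ⟨fun j => (h j).1, fun j => (h j).2⟩⟩

theorem rep_prob (P : AMProtocol X Y) (k : ℕ) (E : Fin k → P.R → P.Q → Prop) :
    (rep P k).prob (fun r q => ∀ j, E j (r j) (q j)) = ∏ j, P.prob (E j) := by
  have := P.finR
  have := P.finQ
  unfold AMProtocol.prob
  rw [Finset.prod_div_distrib]
  congr 1
  · have e : {c : (rep P k).R × (rep P k).Q // ∀ j, E j (c.1 j) (c.2 j)} ≃
        ((j : Fin k) → {c : P.R × P.Q // E j c.1 c.2}) :=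
      { toFun := fun c j => ⟨(c.1.1 j, c.1.2 j), c.2 j⟩
        invFun := fun d => ⟨(fun j => (d j).1.1, fun j => (d j).1.2), fun j => (d j).2⟩
        left_inv := fun c => rfl
        right_inv := fun d => rfl }
    rw [Nat.card_congr e, Nat.card_pi]
    push_cast
    rfl
  · have e : (rep P k).R × (rep P k).Q ≃ (Fin k → P.R × P.Q) :=
      { toFun := fun c j => (c.1 j, c.2 j)
        invFun := fun d => (fun j => (d j).1, fun j => (d j).2)
        left_inv := fun c => rfl
        right_inv := fun d => rfl }
    rw [Nat.card_congr e, Nat.card_pi]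
    push_cast
    rfl

theorem rep_acc (P : AMProtocol X Y) (k : ℕ) (x : X) (y : Y) :
    (rep P k).accProb x y = P.accProb x y ^ k := by
  have h : (rep P k).accProb x y =
      (rep P k).prob (fun r q => ∀ j : Fin k, ∃ i, P.Hits x y (r j) (q j) i) := by
    unfold AMProtocol.accProb
    congr 1
    funext r q
    simp only [eq_iff_iff]
    constructor
    · rintro ⟨i, hi⟩ j
      exact ⟨_, (rep_hits P k x y r q i).1 hi j⟩
    · intro h
      choose g hg using h
      refine ⟨finFunctionFinEquiv g, (rep_hits P k x y r q _).2 fun j => ?_⟩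
      rw [Equiv.symm_apply_apply]
      exact hg j
  rw [h, rep_prob P k (fun _ r q => ∃ i, P.Hits x y r q i), Finset.prod_const, Finset.card_univ,
    Fintype.card_fin]
  rfl

theorem index_some {P : AMProtocol X Y} {f : X → Y → Bool} {δ : ℚ} (hP : IsZAMErr δ P f) {x : X}
    {y : Y} (hf : f x y = true) (r : P.R) (q : P.Q) (i : Fin P.m) :
    P.index x y r q = some i ↔ P.Hits x y r q i := by
  classical
  unfold AMProtocol.index
  constructor
  · intro h
    split_ifs at h with h1
    · rw [Option.some.injEq] at h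
      rw [← h]
      exact h1.choose_spec
  · intro h
    rw [dif_pos ⟨i, h⟩, Option.some.injEq]
    exact hP.unambiguous x y hf r q _ _ (Exists.choose_spec ⟨i, h⟩) h

theorem rep_unamb {P : AMProtocol X Y} {f : X → Y → Bool} {δ : ℚ} (hP : IsZAMErr δ P f) (k : ℕ)
    {x : X} {y : Y} (hf : f x y = true) (r : (rep P k).R) (q : (rep P k).Q)
    (i j : Fin (rep P k).m) (hi : (rep P k).Hits x y r q i) (hj : (rep P k).Hits x y r q j) :
    i = j := by
  apply finFunctionFinEquiv.symm.injective
  funext t
  exact hP.unambiguous x y hf _ _ _ _ ((rep_hits P k x y r q i).1 hi t)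
    ((rep_hits P k x y r q j).1 hj t)

theorem prob_none {P : AMProtocol X Y} {x : X} {y : Y} (h : P.accProb x y = 1) :
    P.prob (fun r q => P.index x y r q = none) = 0 := by
  classical
  have := P.finR
  have := P.finQ
  have := P.neR
  have := P.neQ
  have hpos : (0 : ℚ) < Nat.card (P.R × P.Q) := by
    exact_mod_cast Nat.card_pos
  unfold AMProtocol.accProb AMProtocol.prob at h
  rw [div_eq_one_iff_eq hpos.ne'] at h
  have h1 : Nat.card {c : P.R × P.Q // ∃ i, P.Hits x y c.1 c.2 i} = Nat.card (P.R × P.Q) := by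
    exact_mod_cast h
  have h2 : ∀ c : P.R × P.Q, ∃ i, P.Hits x y c.1 c.2 i := by
    by_contra hcon
    push Not at hcon
    obtain ⟨c, hc⟩ := hcon
    have h3 : Fintype.card {c : P.R × P.Q // ∃ i, P.Hits x y c.1 c.2 i} < Fintype.card (P.R × P.Q) :=
      Fintype.card_subtype_lt (x := c) (by rintro ⟨i, hi⟩; exact hc i hi)
    rw [Nat.card_eq_fintype_card, Nat.card_eq_fintype_card] at h1
    omega
  unfold AMProtocol.prob
  have h4 : Nat.card {c : P.R × P.Q // P.index x y c.1 c.2 = none} = 0 := by
    have : IsEmpty {c : P.R × P.Q // P.index x y c.1 c.2 = none} := by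
      refine ⟨fun c => ?_⟩
      have h5 := c.2
      unfold AMProtocol.index at h5
      rw [dif_pos (h2 c.1)] at h5
      simp at h5
    exact Nat.card_of_isEmpty
  rw [h4]
  simp

/-- **Parallel repetition.** -/
theorem rep_isZAM {P : AMProtocol X Y} {f : X → Y → Bool} {δ : ℚ} (hP : IsZAMErr δ P f) (k : ℕ) :
    IsZAMErr (δ ^ k) (rep P k) f := by
  have hac : ∀ x y, f x y = true → (rep P k).accProb x y = 1 := by
    intro x y hf
    rw [rep_acc, hP.completeness x y hf, one_pow]
  refine ⟨hac, fun x y hf => ?_, fun x y hf r q i j hi hj => rep_unamb hP k hf r q i j hi hj, ?_⟩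
  · rw [rep_acc]
    refine pow_le_pow_left₀ ?_ (hP.soundness x y hf) k
    unfold AMProtocol.accProb AMProtocol.prob
    positivity
  · intro x y x' y' hf hf' o
    cases o with
    | none => rw [prob_none (hac x y hf), prob_none (hac x' y' hf')]
    | some i =>
      have key : ∀ x y, f x y = true → (rep P k).prob (fun r q => (rep P k).index x y r q = some i) =
          ∏ j, P.prob (fun r q => P.index x y r q = some (finFunctionFinEquiv.symm i j)) := by
        intro x y hf
        rw [← rep_prob]
        congr 1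
        funext r q
        simp only [eq_iff_iff]
        rw [show ((rep P k).index x y r q = some i ↔ (rep P k).Hits x y r q i) from by
          unfold AMProtocol.index
          classical
          constructor
          · intro h
            split_ifs at h with h1
            · rw [Option.some.injEq] at h
              rw [← h]
              exact h1.choose_spec
          · intro h
            rw [dif_pos ⟨i, h⟩, Option.some.injEq]
            exact rep_unamb hP k hf r q _ _ (Exists.choose_spec ⟨i, h⟩) h]
        rw [rep_hits]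
        exact forall_congr' fun j => (index_some hP hf _ _ _).symm
      rw [key x y hf, key x' y' hf']
      exact Finset.prod_congr rfl fun j _ => hP.zeroInformation x y x' y' hf hf' _

theorem clog_pow_le (m k : ℕ) : Nat.clog 2 (m ^ k) ≤ k * Nat.clog 2 m := by
  apply (Nat.clog_le_iff_le_pow (by norm_num)).2
  rw [mul_comm, pow_mul]
  exact Nat.pow_le_pow_left (Nat.le_pow_clog (by norm_num) m) k

/-- Soundness error `2^{-k}` costs at most a factor `k`. -/
theorem zamErr_le (f : X → Y → Bool) (k c : ℕ) (h : ZAM f ≤ (c : ℕ∞)) :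
    ZAMErr ((1 / 2) ^ k) f ≤ ((k * c : ℕ) : ℕ∞) := by
  have h1 : ∃ P : AMProtocol X Y, P.IsZAM f ∧ P.cost ≤ c := by
    by_contra hcon
    push Not at hcon
    have : ((c + 1 : ℕ) : ℕ∞) ≤ ZAM f := by
      unfold ZAM
      refine le_iInf fun P => le_iInf fun hP => ?_
      exact_mod_cast hcon P hP
    have h2 := this.trans h
    have h3 : c + 1 ≤ c := by exact_mod_cast h2
    omega
  obtain ⟨P, hP, hc⟩ := h1
  have hP' : IsZAMErr (1 / 2) P f := ⟨hP.1, hP.2, hP.3, hP.4⟩
  refine (iInf_le _ (rep P k)).trans ((iInf_le _ (rep_isZAM hP' k)).trans ?_)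
  have h2 : (rep P k).cost ≤ k * c := (clog_pow_le _ _).trans (Nat.mul_le_mul_left k hc)
  exact_mod_cast h2

/-- pulling a protocol back along a map of Alice's inputs -/
def pull {X' : Type} (P : AMProtocol X' Y) (g : X → X') : AMProtocol X Y where
  R := P.R
  Q := P.Q
  finR := P.finR
  finQ := P.finQ
  neR := P.neR
  neQ := P.neQ
  m := P.m
  A i := {z | (g z.1, z.2) ∈ P.A i}
  B := P.B

theorem pull_isZAM {X' : Type} {P : AMProtocol X' Y} {f : X' → Y → Bool} {δ : ℚ}
    (hP : IsZAMErr δ P f) (g : X → X') : IsZAMErr δ (pull P g) (fun x y => f (g x) y) :=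
  ⟨fun x y h => hP.1 (g x) y h, fun x y h => hP.2 (g x) y h, fun x y h => hP.3 (g x) y h,
    fun x y x' y' h h' => hP.4 (g x) y (g x') y' h h'⟩

theorem zamErr_pull {X' : Type} (δ : ℚ) (f : X' → Y → Bool) (g : X → X') :
    ZAMErr δ (fun x y => f (g x) y) ≤ ZAMErr δ f := by
  unfold ZAMErr
  exact le_iInf fun P => le_iInf fun hP =>
    (iInf_le _ (pull P g)).trans ((iInf_le _ (pull_isZAM hP g)).trans le_rfl)

end

end Pool.Agent.KS6_76.ZAM
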